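import Pool.Agent.Y6.G.Stm3

/-!
# Bases of the spaces of admissible pairs
-/

set_option autoImplicit false

namespace Pool.Agent.Y220.EP.Bas

open Pool.Agent.Y6.G
open Pool.Agent.Y6.M (Z3)

theorem ev_add (p q : MvPolynomial (Fin 3) ℝ) (k : Z3) : ev (p + q) k = ev p k + ev q k := by
  unfold ev
  exact map_add _ _ _

theorem ev_smul (c : ℝ) (p : MvPolynomial (Fin 3) ℝ) (k : Z3) : ev (c • p) k = c * ev p k := by
  unfold ev
  rw [MvPolynomial.smul_eval]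

theorem ev_zero (k : Z3) : ev (0 : MvPolynomial (Fin 3) ℝ) k = 0 := by
  unfold ev
  exact map_zero _

theorem adm_add {A B A' B' : MvPolynomial (Fin 3) ℝ} (h : Adm2 A B) (h' : Adm2 A' B') :
    Adm2 (A + A') (B + B') := by
  refine ⟨fun k => ?_, fun k => ?_, fun j t => ?_, fun j t => ?_⟩
  · rw [ev_add, ev_add, h.oddA, h'.oddA]; ring
  · rw [ev_add, ev_add, h.oddB, h'.oddB]; ring
  · rw [ev_add, h.axes, h'.axes, add_zero]
  · rw [ev_add, h.curves, h'.curves, add_zero]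

theorem adm_smul (c : ℝ) {A B : MvPolynomial (Fin 3) ℝ} (h : Adm2 A B) :
    Adm2 (c • A) (c • B) := by
  refine ⟨fun k => ?_, fun k => ?_, fun j t => ?_, fun j t => ?_⟩
  · rw [ev_smul, ev_smul, h.oddA]; ring
  · rw [ev_smul, ev_smul, h.oddB]; ring
  · rw [ev_smul, h.axes, mul_zero]
  · rw [ev_smul, h.curves, mul_zero]

theorem adm_zero : Adm2 0 0 := by
  refine ⟨fun k => ?_, fun k => ?_, fun j t => ?_, fun j t => ?_⟩
  · rw [ev_zero, ev_zero, neg_zero]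
  · rw [ev_zero, ev_zero, neg_zero]
  · exact ev_zero _
  · exact ev_zero _

/-- the space of admissible pairs of degree at most `d` -/
noncomputable def Wd (d : ℕ) :
    Submodule ℝ (MvPolynomial (Fin 3) ℝ × MvPolynomial (Fin 3) ℝ) where
  carrier := {p | Adm2 p.1 p.2 ∧ p.1 ∈ MvPolynomial.restrictTotalDegree (Fin 3) ℝ d ∧
    p.2 ∈ MvPolynomial.restrictTotalDegree (Fin 3) ℝ d}
  add_mem' := fun ⟨h1, h2, h3⟩ ⟨h1', h2', h3'⟩ =>
    ⟨adm_add h1 h1', Submodule.add_mem _ h2 h2', Submodule.add_mem _ h3 h3'⟩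
  zero_mem' := ⟨adm_zero, Submodule.zero_mem _, Submodule.zero_mem _⟩
  smul_mem' := fun c _ ⟨h1, h2, h3⟩ =>
    ⟨adm_smul c h1, Submodule.smul_mem _ c h2, Submodule.smul_mem _ c h3⟩

theorem mem_Wd {d : ℕ} {p : MvPolynomial (Fin 3) ℝ × MvPolynomial (Fin 3) ℝ} :
    p ∈ Wd d ↔ Adm2 p.1 p.2 ∧ p.1.totalDegree ≤ d ∧ p.2.totalDegree ≤ d := by
  rw [← MvPolynomial.mem_restrictTotalDegree, ← MvPolynomial.mem_restrictTotalDegree]
  rfl

theorem fin_Wd (d : ℕ) : FiniteDimensional ℝ (Wd d) := by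
  let f1 : Wd d →ₗ[ℝ] MvPolynomial.restrictTotalDegree (Fin 3) ℝ d :=
    LinearMap.codRestrict _ ((LinearMap.fst ℝ _ _).comp (Wd d).subtype) (fun p => p.2.2.1)
  let f2 : Wd d →ₗ[ℝ] MvPolynomial.restrictTotalDegree (Fin 3) ℝ d :=
    LinearMap.codRestrict _ ((LinearMap.snd ℝ _ _).comp (Wd d).subtype) (fun p => p.2.2.2)
  apply FiniteDimensional.of_injective (f1.prod f2)
  intro p q h
  have h1 := congrArg (fun x => (x.1 : MvPolynomial (Fin 3) ℝ)) h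
  have h2 := congrArg (fun x => (x.2 : MvPolynomial (Fin 3) ℝ)) h
  exact Subtype.ext (Prod.ext h1 h2)

theorem t_BAS : Pool.Agent.Y6.G.S_BAS := by
  intro d
  have := fin_Wd d
  obtain ⟨N, ⟨b⟩⟩ : ∃ N : ℕ, Nonempty (Module.Basis (Fin N) ℝ (Wd d)) :=
    ⟨_, ⟨Module.finBasis ℝ (Wd d)⟩⟩
  refine ⟨N, fun l => (b l).1.1, fun l => (b l).1.2, fun l => mem_Wd.1 (b l).2, ?_⟩
  intro A' B' h hA hB
  obtain ⟨p, hp⟩ : ∃ p : Wd d, p.1 = (A', B') := ⟨⟨(A', B'), mem_Wd.2 ⟨h, hA, hB⟩⟩, rfl⟩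
  have key : ∀ c : Fin N → ℝ, (A' = ∑ l, MvPolynomial.C (c l) * (b l).1.1 ∧
      B' = ∑ l, MvPolynomial.C (c l) * (b l).1.2) ↔ ∑ l, c l • b l = p := by
    intro c
    have h1 : (∑ l, c l • b l : Wd d).1 =
        (∑ l, MvPolynomial.C (c l) * (b l).1.1, ∑ l, MvPolynomial.C (c l) * (b l).1.2) := by
      rw [Submodule.coe_sum]
      apply Prod.ext
      · rw [Prod.fst_sum]
        refine Finset.sum_congr rfl fun l _ => ?_
        rw [← MvPolynomial.smul_eq_C_mul]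
        rfl
      · rw [Prod.snd_sum]
        refine Finset.sum_congr rfl fun l _ => ?_
        rw [← MvPolynomial.smul_eq_C_mul]
        rfl
    rw [← Subtype.coe_inj]
    show _ ↔ (∑ l, c l • b l : Wd d).1 = p.1
    rw [h1, hp, Prod.mk.injEq]
    exact ⟨fun h => ⟨h.1.symm, h.2.symm⟩, fun h => ⟨h.1.symm, h.2.symm⟩⟩
  refine ⟨fun l => b.repr p l, (key _).2 (b.sum_repr p), fun c hc => ?_⟩
  have h2 := (key c).1 hc
  have h3 := b.repr_sum_self c
  rw [h2] at h3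
  exact h3.symm

end Pool.Agent.Y220.EP.Bas
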